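import Pool.Agent.H31.UF.Targets

/-!
# Module [GPD]: the dilated product
-/

set_option autoImplicit false
set_option linter.unusedVariables false

open Finset Filter Topology

namespace Pool.Agent.H68.UF

open Pool.Agent.H91.LF Pool.Agent.H31.UF

theorem pf_GPD : T_GPD := by
  classical
  intro d r S _ A a cc j W z u e D C V p ρ s kp kr hS hD hp hI hE hkp hkr hpr ω
  have hD' : (D : ℤ) ≠ 0 := by exact_mod_cast hD.ne'
  have hkp' : (D : ℤ) * kp = 1 + s * p := by exact_mod_cast hkp
  have hkr' : (D : ℤ) * kr = 1 + s * ρ := by exact_mod_cast hkr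
  have hpr' : ((D * W : ℕ) : ℤ) ∣ (p : ℤ) - ρ := (Nat.modEq_iff_dvd.1 hpr.symm)
  have hprW : (p : ℤ) ≡ ρ [ZMOD W] := by
    rw [Int.modEq_comm, Int.modEq_iff_dvd]
    exact (Dvd.intro_left (D : ℤ) (by push_cast; ring)).trans hpr'
  have hkk : (kp : ℤ) ≡ kr [ZMOD W] := by
    rw [Int.modEq_comm, Int.modEq_iff_dvd]
    obtain ⟨t, ht⟩ := hpr'
    refine ⟨s * t, ?_⟩
    have h1 : (D : ℤ) * ((kp : ℤ) - kr) = D * (W * (s * t)) := by
      rw [mul_sub, hkp', hkr']
      push_cast at ht
      linear_combination (s : ℤ) * ht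
    exact mul_left_cancel₀ hD' h1
  have hcl : (∀ i, ((fun i => (p : ℤ) * ω i) + ((kp : ℤ) • u + (V * p) • e)) i ≡
      z i [ZMOD W]) ↔
      ∀ i, (ρ : ℤ) * ω i + (kr * u i + V * ρ * e i) ≡ z i [ZMOD W] := by
    have h1 : ∀ i, ((fun i => (p : ℤ) * ω i) + ((kp : ℤ) • u + (V * p) • e)) i ≡
        (ρ : ℤ) * ω i + (kr * u i + V * ρ * e i) [ZMOD W] := by
      intro i
      simp only [Pi.add_apply, Pi.smul_apply, smul_eq_mul]
      exact (hprW.mul_right _).add ((hkk.mul_right _).add ((hprW.mul_left _).mul_right _))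
    exact ⟨fun h i => (h1 i).symm.trans (h i), fun h i => (h1 i).trans (h i)⟩
  -- the values of the forms
  have hf : ∀ (i : Fin r) (σ : S),
      lf (A i σ) ((fun i => (p : ℤ) * ω i) + ((kp : ℤ) • u + (V * p) • e)) =
      p * lf (A i σ) ω + (kp * lf (A i σ) u + V * p) := by
    intro i σ
    rw [lf_add, lf_add, lf_mul, lf_smul, lf_smul, hE i σ, mul_one]
  have hf2 : ∀ (i : Fin r), i ≠ j → ∀ σ : S,
      p * lf (A i σ) ω + (kp * lf (A i σ) u + V * p) + (a i + cc i * p) =
      p * (lf (A i σ) ω + (V + cc i - s * a i)) := by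
    intro i hi σ
    have h1 := hI.2.1 i hi σ
    have h2 : (kp : ℤ) * lf (A i σ) u = -(1 + s * p) * a i := by
      have : lf (A i σ) u = -(D * a i) := by linarith
      rw [this]
      linear_combination -(a i) * hkp'
    rw [h2]
    ring
  unfold Fp Rp
  simp only [hcl]
  split_ifs with hc
  · rw [← Finset.mul_prod_erase Finset.univ _ (Finset.mem_univ j), mul_comm]
    congr 1
    · apply Finset.prod_congr rfl
      intro i hi
      have hij : i ≠ j := (Finset.mem_erase.1 hi).1
      refine Eq.trans ?_ (prod_lz_mul hS hp (fun σ => lf (A i σ) ω + (V + cc i - s * a i)))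
      apply Finset.prod_congr rfl
      intro σ _
      rw [hf, hf2 i hij]
    · unfold Bv
      apply Finset.prod_congr rfl
      intro σ _
      rw [hf]
      congr 1
      have h1 := hI.2.2 σ
      have : lf (A j σ) u = C - D * a j := by linarith
      rw [this]
      ring
  · simp

end Pool.Agent.H68.UF
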