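import Pool.Agent.H31.UF.Targets

/-!
# Module [PZ]: two dilated products are orthogonal
-/

set_option autoImplicit false
set_option linter.unusedVariables false

open Finset Filter Topology

namespace Pool.Agent.H68.UF

open Pool.Agent.H91.LF Pool.Agent.H31.UF

open Classical in
/-- Dilation in the form used here. -/
theorem dilE {d : ℕ} {M : Mean d} (hM : Dil M) (p : ℕ) (hp : p.Prime)
    (f : (Fin d → ℤ) → ℝ) (hf : Bdd f) :
    M.E (fun ω => f (fun i => (p : ℤ) * ω i)) =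
      M.E (fun ω => (p : ℝ) ^ d * if ∀ i, (p : ℤ) ∣ ω i then f ω else 0) := by
  have h1 := hM p hp (fun ω => f (fun i => (p : ℤ) * ω i)) (bdd_comp hf _)
  rw [← h1]
  congr 1
  funext ω
  by_cases h : ∀ i, (p : ℤ) ∣ ω i
  · rw [if_pos h, if_pos h]
    congr 2
    funext i
    exact Int.mul_ediv_cancel' (h i)
  · rw [if_neg h, if_neg h]

theorem pf_PZ (hCOR : T_COR) : T_PZ := by
  classical
  intro d S _ A M e p q X Y hS hM hG he hp hq hpq hXY
  obtain ⟨A2, hA2⟩ : ∃ A2 : Fin 2 → S → Fin d → ℤ, A2 = fun _ => A := ⟨_, rfl⟩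
  obtain ⟨a2, ha2⟩ : ∃ a2 : Fin 2 → ℤ, a2 = ![(q : ℤ) * X, (p : ℤ) * Y] := ⟨_, rfl⟩
  obtain ⟨F, hF⟩ : ∃ F : (Fin d → ℤ) → ℝ, F = Fp A2 a2 (p * q) 0 := ⟨_, rfl⟩
  have hFb : Bdd F := by rw [hF]; exact bdd_Fp _ _ _ _
  have hp0 : (p : ℤ) ≠ 0 := by exact_mod_cast hp.ne_zero
  have hq0 : (q : ℤ) ≠ 0 := by exact_mod_cast hq.ne_zero
  have e1 : (fun ω => Bv A p X ω * Bv A q Y ω) =
      fun ω : Fin d → ℤ => F (fun i => (p : ℤ) * ((q : ℤ) * ω i)) := by
    funext ω
    have hcl : ∀ i, (fun i => (p : ℤ) * ((q : ℤ) * ω i)) i ≡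
        (0 : Fin d → ℤ) i [ZMOD ((p * q : ℕ) : ℤ)] := by
      intro i
      simp only [Pi.zero_apply]
      rw [Int.modEq_zero_iff_dvd]
      exact ⟨ω i, by push_cast; ring⟩
    have f0 : ∀ s, lf (A s) (fun i => (p : ℤ) * ((q : ℤ) * ω i)) = p * (q * lf (A s) ω) := by
      intro s
      rw [lf_mul, lf_mul]
    rw [hF]
    unfold Fp
    rw [if_pos hcl, Fin.prod_univ_two]
    have f1 : ∏ s, lz (lf (A2 0 s) (fun i => (p : ℤ) * ((q : ℤ) * ω i)) + a2 0) =
        Bv A p X ω := by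
      refine Eq.trans ?_ (prod_lz_mul hS hq (fun s => (p : ℤ) * lf (A s) ω + X))
      refine Finset.prod_congr rfl fun s _ => ?_
      rw [hA2, ha2]
      simp only [Matrix.cons_val_zero]
      rw [f0]
      congr 1
      ring
    have f2 : ∏ s, lz (lf (A2 1 s) (fun i => (p : ℤ) * ((q : ℤ) * ω i)) + a2 1) =
        Bv A q Y ω := by
      refine Eq.trans ?_ (prod_lz_mul hS hp (fun s => (q : ℤ) * lf (A s) ω + Y))
      refine Finset.prod_congr rfl fun s _ => ?_
      rw [hA2, ha2]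
      simp only [Matrix.cons_val_one, Matrix.cons_val_zero]
      rw [f0]
      congr 1
      ring
    rw [f1, f2]
  rw [e1]
  have s1 := dilE hM q hq (fun ω => F (fun i => (p : ℤ) * ω i)) (bdd_comp hFb _)
  rw [s1]
  obtain ⟨f4, hf4⟩ : ∃ f4 : (Fin d → ℤ) → ℝ, f4 = fun ω => (q : ℝ) ^ d *
    if ∀ i, (q : ℤ) ∣ ω i then F ω else 0 := ⟨_, rfl⟩
  have hf4b : Bdd f4 := by
    rw [hf4]
    apply bdd_smul
    obtain ⟨C, hC⟩ := hFb
    refine ⟨C, fun ω => ?_⟩
    dsimp only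
    split_ifs
    · exact hC _
    · simpa using (abs_nonneg _).trans (hC 0)
  have e2 : (fun ω : Fin d → ℤ => (q : ℝ) ^ d *
      if ∀ i, (q : ℤ) ∣ ω i then F (fun i => (p : ℤ) * ω i) else 0) =
      fun ω => f4 (fun i => (p : ℤ) * ω i) := by
    funext ω
    have hiff : (∀ i, (q : ℤ) ∣ (p : ℤ) * ω i) ↔ ∀ i, (q : ℤ) ∣ ω i := by
      constructor
      · intro h1 i
        rcases (Nat.prime_iff_prime_int.1 hq).dvd_or_dvd (h1 i) with h2 | h2
        · exfalso
          have h3 : q ∣ p := by exact_mod_cast h2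
          exact hpq ((Nat.prime_dvd_prime_iff_eq hq hp).1 h3).symm
        · exact h2
      · intro h1 i
        exact (h1 i).mul_left _
    simp only [hf4, hiff]
  rw [e2, dilE hM p hp f4 hf4b]
  have e3 : (fun ω => (p : ℝ) ^ d * if ∀ i, (p : ℤ) ∣ ω i then f4 ω else 0) =
      fun ω => ((p : ℝ) ^ d * (q : ℝ) ^ d) * F ω := by
    funext ω
    by_cases hc : ∀ i, ω i ≡ (0 : Fin d → ℤ) i [ZMOD ((p * q : ℕ) : ℤ)]
    · have h1 : ∀ i, ((p : ℤ) * q) ∣ ω i := by
        intro i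
        have := hc i
        simp only [Pi.zero_apply] at this
        rw [Int.modEq_zero_iff_dvd] at this
        push_cast at this
        exact this
      have h2 : ∀ i, (p : ℤ) ∣ ω i := fun i => (Dvd.intro _ rfl).trans (h1 i)
      have h3 : ∀ i, (q : ℤ) ∣ ω i := fun i => (Dvd.intro_left _ rfl).trans (h1 i)
      rw [if_pos h2, hf4]
      simp only
      rw [if_pos h3]
      ring
    · have h1 : F ω = 0 := by
        rw [hF]
        unfold Fp
        rw [if_neg hc]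
      rw [h1, mul_zero]
      have h2 : f4 ω = 0 := by
        simp only [hf4, h1]
        simp
      simp [h2]
  rw [e3, M.smul _ _ hFb]
  have hI : IndA A2 a2 0 1 ((-((p : ℤ) * Y)) • e) ((q : ℤ) * X - p * Y) := by
    refine ⟨sub_ne_zero.2 hXY, fun i hi s => ?_, fun s => ?_⟩
    · have h1 : i = 1 := by
        fin_cases i
        · exact absurd rfl hi
        · rfl
      subst h1
      rw [hA2, ha2, lf_smul, he s]
      simp
    · rw [hA2, ha2, lf_smul, he s]
      simp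
      ring
  have hDir : Dir A2 e := fun i s => by rw [hA2]; exact he s
  have h5 := hCOR d 2 S A2 a2 (p * q) 0 _ e 0 1 _ M (Nat.mul_pos hp.pos hq.pos) hS hI hDir hM
    (by rw [hA2]; exact hG)
  rw [hF, h5, mul_zero]

end Pool.Agent.H68.UF
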